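import Pool.Agent.H992.SF.Defs

/-!
# Square integrable densities with translation invariant characters are constant (SF3, helper284)
-/

set_option autoImplicit false
open MeasureTheory Filter Topology Complex ProbabilityTheory
open scoped ContDiff ENNReal

namespace Pool.Agent.H284.SF

open Pool.Agent.N661.BR (MW lin shift IsStationary IsErgodic IsRandomWave meas_shift)
open Pool.Agent.H992.LB (eγ eγ_norm eγ_meas val val_lin val_shift val_neg)
open Pool.Agent.H992.SF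

theorem eγ_shift (τ : ℂ →₀ ℝ) (x : ℂ) (f : MW) :
    eγ (τ.mapDomain (· + x)) f = eγ τ (shift x f) := by
  unfold eγ
  rw [val_shift, val_lin τ (shift x f)]
  rfl

theorem shift_neg_shift (x : ℂ) (f : MW) : shift (-x) (shift x f) = f := by
  apply Subtype.ext
  funext y
  show f (y + -x + x) = f y
  rw [neg_add_cancel_right]

theorem mp_shift {m : Measure MW} (hs : IsStationary m) (x : ℂ) :
    MeasurePreserving (shift x) m m := ⟨meas_shift x, hs x⟩

theorem eγ_neg (τ : ℂ →₀ ℝ) (f : MW) : eγ (-τ) f = (starRingEnd ℂ) (eγ τ f) := by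
  unfold eγ
  rw [val_neg, ← Complex.exp_conj, map_mul, Complex.conj_I, Complex.conj_ofReal]
  congr 1
  push_cast
  ring

theorem int_mul {m : Measure MW} {h : MW → ℂ} (hi : Integrable h m) (τ : ℂ →₀ ℝ) :
    Integrable (fun f => h f * eγ τ f) m :=
  hi.mul_bdd (c := 1) (eγ_meas τ).aestronglyMeasurable
    (Eventually.of_forall fun x => (eγ_norm τ x).le)

theorem int_conj {m : Measure MW} {h : MW → ℂ} (hi : Integrable h m) :
    Integrable (fun f => (starRingEnd ℂ) (h f)) m :=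
  Complex.conjLIE.toContinuousLinearEquiv.toContinuousLinearMap.integrable_comp hi

theorem conj_eq {m : Measure MW} (h : MW → ℂ) (τ : ℂ →₀ ℝ) :
    ∫ f, h f * eγ τ f ∂m = (starRingEnd ℂ) (∫ f, (starRingEnd ℂ) (h f) * eγ (-τ) f ∂m) := by
  rw [← integral_conj]
  refine integral_congr_ae (Eventually.of_forall fun f => ?_)
  show h f * eγ τ f = (starRingEnd ℂ) ((starRingEnd ℂ) (h f) * eγ (-τ) f)
  rw [eγ_neg, map_mul, Complex.conj_conj, Complex.conj_conj]

/-- invariance for the real and the imaginary part -/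
theorem inv_parts {m : Measure MW} {h : MW → ℂ} (hi : Integrable h m)
    (H : ∀ (τ : ℂ →₀ ℝ) (x : ℂ), ∫ f, (starRingEnd ℂ) (h f) * eγ (τ.mapDomain (· + x)) f ∂m =
      ∫ f, (starRingEnd ℂ) (h f) * eγ τ f ∂m) :
    (∀ (τ : ℂ →₀ ℝ) (x : ℂ), ∫ f, ((h f).re : ℂ) * eγ (τ.mapDomain (· + x)) f ∂m =
      ∫ f, ((h f).re : ℂ) * eγ τ f ∂m) ∧
    ∀ (τ : ℂ →₀ ℝ) (x : ℂ), ∫ f, ((h f).im : ℂ) * eγ (τ.mapDomain (· + x)) f ∂m =
      ∫ f, ((h f).im : ℂ) * eγ τ f ∂m := by
  have K : ∀ (τ : ℂ →₀ ℝ) (x : ℂ), ∫ f, h f * eγ (τ.mapDomain (· + x)) f ∂m =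
      ∫ f, h f * eγ τ f ∂m := by
    intro τ x
    rw [conj_eq, conj_eq (τ := τ)]
    have e1 : -(τ.mapDomain (· + x)) = (-τ).mapDomain (· + x) := by
      rw [← Finsupp.mapDomain.addMonoidHom_apply, ← Finsupp.mapDomain.addMonoidHom_apply, map_neg]
    rw [e1, H]
  have hre : ∀ τ : ℂ →₀ ℝ, ∫ f, ((h f).re : ℂ) * eγ τ f ∂m =
      ((∫ f, h f * eγ τ f ∂m) + ∫ f, (starRingEnd ℂ) (h f) * eγ τ f ∂m) / 2 := by
    intro τ
    rw [← integral_add (int_mul hi τ) (int_mul (int_conj hi) τ), ← integral_div]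
    refine integral_congr_ae (Eventually.of_forall fun f => ?_)
    show ((h f).re : ℂ) * eγ τ f = (h f * eγ τ f + (starRingEnd ℂ) (h f) * eγ τ f) / 2
    rw [Complex.re_eq_add_conj]
    ring
  have him : ∀ τ : ℂ →₀ ℝ, ∫ f, ((h f).im : ℂ) * eγ τ f ∂m =
      ((∫ f, h f * eγ τ f ∂m) - ∫ f, (starRingEnd ℂ) (h f) * eγ τ f ∂m) / (2 * I) := by
    intro τ
    rw [← integral_sub (int_mul hi τ) (int_mul (int_conj hi) τ), ← integral_div]
    refine integral_congr_ae (Eventually.of_forall fun f => ?_)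
    show ((h f).im : ℂ) * eγ τ f = (h f * eγ τ f - (starRingEnd ℂ) (h f) * eγ τ f) / (2 * I)
    rw [Complex.im_eq_sub_conj]
    ring
  exact ⟨fun τ x => by rw [hre, hre, K, H], fun τ x => by rw [him, him, K, H]⟩

/-- a real integrable function with invariant characters is constant -/
theorem real_const (h1 : S_INJ) (h2 : S_CONST) {m : Measure MW} (hm : IsProbabilityMeasure m)
    (hs : IsStationary m) (he : IsErgodic m) {g : MW → ℝ} (hg : Measurable g)
    (hi : Integrable g m)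
    (H : ∀ (τ : ℂ →₀ ℝ) (x : ℂ), ∫ f, (g f : ℂ) * eγ (τ.mapDomain (· + x)) f ∂m =
      ∫ f, (g f : ℂ) * eγ τ f ∂m) : ∃ c : ℝ, g =ᵐ[m] fun _ => c := by
  refine h2 m hm he g hg fun x => ?_
  have hmp := mp_shift hs x
  refine h1 m hm _ g ((hmp.integrable_comp hg.aestronglyMeasurable).2 hi) hi fun τ => ?_
  -- replace `x` by `-x` in the hypothesis
  have hmp' := mp_shift hs (-x)
  have e1 : ∫ f, ((g (shift x f) : ℝ) : ℂ) * eγ τ f ∂m =
      ∫ f, (g f : ℂ) * eγ τ (shift (-x) f) ∂m := by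
    have hae : AEStronglyMeasurable (fun f => ((g f : ℝ) : ℂ) * eγ τ (shift (-x) f)) m :=
      ((Complex.measurable_ofReal.comp hg).mul ((eγ_meas τ).comp (meas_shift (-x)))).aestronglyMeasurable
    have e2 := integral_map (μ := m) (meas_shift x).aemeasurable (f := fun f =>
      ((g f : ℝ) : ℂ) * eγ τ (shift (-x) f)) (by rw [hs x]; exact hae)
    rw [hs x] at e2
    rw [e2]
    refine integral_congr_ae (Eventually.of_forall fun f => ?_)
    show ((g (shift x f) : ℝ) : ℂ) * eγ τ f =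
      ((g (shift x f) : ℝ) : ℂ) * eγ τ (shift (-x) (shift x f))
    rw [shift_neg_shift]
  show ∫ f, ((g (shift x f) : ℝ) : ℂ) * eγ τ f ∂m = _
  rw [e1, ← H τ (-x)]
  refine integral_congr_ae (Eventually.of_forall fun f => ?_)
  show (g f : ℂ) * eγ τ (shift (-x) f) = (g f : ℂ) * eγ (τ.mapDomain (· + -x)) f
  rw [eγ_shift]

theorem hc (h1 : S_INJ) (h2 : S_CONST) : S_HC := by
  intro m hm hs he h₀ hh₀ H₀ τ
  -- a measurable representative
  have hi₀ : Integrable h₀ m := hh₀.integrable (by norm_num)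
  have hsm : AEStronglyMeasurable h₀ m := hi₀.aestronglyMeasurable
  set h : MW → ℂ := hsm.mk h₀ with hh
  have hmeas : Measurable h := hsm.stronglyMeasurable_mk.measurable
  have hae : h₀ =ᵐ[m] h := hsm.ae_eq_mk
  have hi : Integrable h m := hi₀.congr hae
  have hconv : ∀ τ : ℂ →₀ ℝ, ∫ f, (starRingEnd ℂ) (h₀ f) * eγ τ f ∂m =
      ∫ f, (starRingEnd ℂ) (h f) * eγ τ f ∂m := fun τ =>
    integral_congr_ae (hae.mono fun f hf => by
      show (starRingEnd ℂ) (h₀ f) * eγ τ f = (starRingEnd ℂ) (h f) * eγ τ f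
      rw [hf])
  have H : ∀ (τ : ℂ →₀ ℝ) (x : ℂ), ∫ f, (starRingEnd ℂ) (h f) * eγ (τ.mapDomain (· + x)) f ∂m =
      ∫ f, (starRingEnd ℂ) (h f) * eγ τ f ∂m := fun τ x => by
    rw [← hconv, ← hconv, H₀]
  obtain ⟨Hre, Him⟩ := inv_parts hi H
  obtain ⟨a, ha⟩ := real_const h1 h2 hm hs he (Complex.measurable_re.comp hmeas) hi.re Hre
  obtain ⟨b, hb⟩ := real_const h1 h2 hm hs he (Complex.measurable_im.comp hmeas) hi.im Him
  have hc : ∀ᵐ f ∂m, (starRingEnd ℂ) (h₀ f) = (starRingEnd ℂ) (⟨a, b⟩ : ℂ) := by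
    filter_upwards [hae, ha, hb] with f e1 e2 e3
    rw [e1]
    congr 1
    exact Complex.ext e2 e3
  have e1 : ∫ f, (starRingEnd ℂ) (h₀ f) * eγ τ f ∂m =
      ∫ f, (starRingEnd ℂ) (⟨a, b⟩ : ℂ) * eγ τ f ∂m :=
    integral_congr_ae (hc.mono fun f hf => by
      show (starRingEnd ℂ) (h₀ f) * eγ τ f = (starRingEnd ℂ) (⟨a, b⟩ : ℂ) * eγ τ f
      rw [hf])
  have e2 : ∫ f, (starRingEnd ℂ) (h₀ f) ∂m = ∫ _f : MW, (starRingEnd ℂ) (⟨a, b⟩ : ℂ) ∂m :=
    integral_congr_ae hc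
  rw [e1, e2, integral_const_mul, integral_const, probReal_univ, one_smul]

end Pool.Agent.H284.SF
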