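import Pool.Agent.H948.SF.Base

set_option autoImplicit false

/-! # SF-HIT (subtask by helper284) -/

namespace Pool.Agent.H284.SFHIT

open MeasureTheory ProbabilityTheory Set Filter Pool.Agent.H948.SF
open scoped ENNReal NNReal Nat Topology

section det

variable {V : Type} {r0 : V} {k : ℤ} {ω : Env (Lab V)}

/-- the cell without marks -/
noncomputable def cell0 : Cell := (0, fun _ => ⟨1, by norm_num, le_rfl⟩)

open Classical in
/-- remove the recoveries of `r0` in the window `k` -/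
noncomputable def del (r0 : V) (k : ℤ) (ω : Env (Lab V)) : Env (Lab V) :=
  fun i => if i = (Sum.inr r0, k) then cell0 else ω i

lemma del_of_ne {i : Lab V × ℤ} (h : i ≠ (Sum.inr r0, k)) : del r0 k ω i = ω i := if_neg h

lemma del_self : del r0 k ω (Sum.inr r0, k) = cell0 := if_pos rfl

lemma marks_del_sub {i : Lab V} {r : ℝ} (h : r ∈ marks (del r0 k ω) i) : r ∈ marks ω i := by
  obtain ⟨m, l, h1, h2⟩ := h
  by_cases hc : (i, m) = (Sum.inr r0, k)
  · rw [hc, del_self] at h1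
    exact absurd h1 (Nat.not_lt_zero _)
  · rw [del_of_ne hc] at h1 h2
    exact ⟨m, l, h1, h2⟩

lemma marks_del_inl (e : Sym2 V) : marks (del r0 k ω) (Sum.inl e) = marks ω (Sum.inl e) := by
  ext r
  constructor
  · exact marks_del_sub
  · rintro ⟨m, l, h1, h2⟩
    have hc : ((Sum.inl e : Lab V), m) ≠ (Sum.inr r0, k) := by
      intro h
      exact Sum.inl_ne_inr (congrArg Prod.fst h)
    exact ⟨m, l, by rw [del_of_ne hc]; exact h1, by rw [del_of_ne hc]; exact h2⟩

lemma marks_del_eq (h : (ω (Sum.inr r0, k)).1 = 0) : marks (del r0 k ω) = marks ω := by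
  funext i
  ext r
  constructor
  · exact marks_del_sub
  · rintro ⟨m, l, h1, h2⟩
    have hc : (i, m) ≠ (Sum.inr r0, k) := by
      intro h'
      rw [h', h] at h1
      exact Nat.not_lt_zero _ h1
    exact ⟨m, l, by rw [del_of_ne hc]; exact h1, by rw [del_of_ne hc]; exact h2⟩

lemma no_mark {r : ℝ} (h1 : (k : ℝ) < r) (h2 : r ≤ k + 1) :
    r ∉ marks (del r0 k ω) (Sum.inr r0) := by
  rintro ⟨m, l, h3, h4⟩
  have hU := (((del r0 k ω (Sum.inr r0, m)).2 l).2 :
    ((del r0 k ω (Sum.inr r0, m)).2 l : ℝ) ∈ Ioc (0 : ℝ) 1)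
  have hm1 : k ≤ m := by
    have : (k : ℝ) < m + 1 := by linarith [hU.2]
    exact Int.lt_add_one_iff.1 (by exact_mod_cast this)
  have hm2 : m < k + 1 := by
    have : (m : ℝ) < ((k + 1 : ℤ) : ℝ) := by push_cast; linarith [hU.1]
    exact_mod_cast this
  have : m = k := by omega
  subst this
  rw [del_self] at h3
  exact Nat.not_lt_zero _ h3

/-- (a) -/
lemma det {e : ℕ} {G : SimpleGraph V} {Φ : W e → V}
    (hexit : ∀ u, u ≠ [] → ∀ x, G.Adj (Φ u) x → x ∈ range Φ) {y x : V} {s : ℤ} {t : ℝ}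
    (h : PE G ω y s x t) : x ∈ range Φ →
      (PE (Rs G (range Φ)) ω y s x t ∨ ∃ k : ℤ, s ≤ k ∧ (k : ℝ) < t ∧
        PE (Rs G (range Φ)) (del (Φ []) k ω) (Φ []) k x t) := by
  induction h with
  | start =>
    intro _
    exact Or.inl (PE.refl _ _)
  | @stay y' t' u' h0 hle hr ih =>
    intro hx
    rcases ih hx with h1 | ⟨k, hk1, hk2, h1⟩
    · exact Or.inl (h1.stay hle hr)
    · exact Or.inr ⟨k, hk1, lt_of_lt_of_le hk2 hle,
        h1.stay hle fun r ha hb hmem => hr r ha hb (marks_del_sub hmem)⟩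
  | @cross y' z' t' h0 hadj hlt hmem ih =>
    intro hx
    by_cases hy : y' ∈ range Φ
    · rcases ih hy with h1 | ⟨k, hk1, hk2, h1⟩
      · exact Or.inl (h1.cross ⟨hadj, hy, hx⟩ hlt hmem)
      · refine Or.inr ⟨k, hk1, hk2, h1.cross ⟨hadj, hy, hx⟩ hk2 ?_⟩
        rw [marks_del_inl]
        exact hmem
    · obtain ⟨u, hu⟩ := hx
      have hu0 : u = [] := by
        by_contra hne
        apply hy
        refine hexit u hne y' ?_
        rw [hu]
        exact hadj.symm
      subst hu0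
      have hc1 : t' ≤ (⌈t'⌉ : ℝ) := Int.le_ceil t'
      have hc2 : (⌈t'⌉ : ℝ) < t' + 1 := Int.ceil_lt_add_one t'
      have hc3 : s < ⌈t'⌉ := by
        have : (s : ℝ) < (⌈t'⌉ : ℝ) := lt_of_lt_of_le hlt hc1
        exact_mod_cast this
      refine Or.inr ⟨⌈t'⌉ - 1, by omega, by push_cast; linarith, ?_⟩
      rw [← hu]
      refine (PE.refl _ _).stay (by push_cast; linarith) ?_
      intro r ha hb
      exact no_mark ha (hb.trans (by push_cast; linarith))

end det

section meas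

variable {V : Type}

lemma measurable_del (r0 : V) (k : ℤ) : Measurable (del r0 k) := by
  refine measurable_pi_lambda _ fun i => ?_
  by_cases h : i = (Sum.inr r0, k)
  · have : (fun ω : Env (Lab V) => del r0 k ω i) = fun _ => cell0 := by
      funext ω
      rw [h, del_self]
    rw [this]
    exact measurable_const
  · have : (fun ω : Env (Lab V) => del r0 k ω i) = fun ω => ω i := by
      funext ω
      rw [del_of_ne h]
    rw [this]
    exact measurable_pi_apply i

/-- independence of an event from a cell -/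
lemma indep_cell (h2 : S_BLOCK) (lam : ℝ) (a : Lab V × ℤ) {A B : Set (Env (Lab V))}
    (hA : MeasurableSet A) (hB : MeasurableSet B)
    (hA' : ∀ ω ω' : Env (Lab V), (∀ i, i ≠ a → ω i = ω' i) → (ω ∈ A ↔ ω' ∈ A))
    (hB' : ∀ ω ω' : Env (Lab V), ω a = ω' a → (ω ∈ B ↔ ω' ∈ B)) :
    mu V lam (A ∩ B) = mu V lam A * mu V lam B := by
  have hind := h2 (Lab V × ℤ) (fun i => contactRate lam i.1) Bool (fun _ => Prop)
    (fun b ω => if b then ω ∈ A else ω ∈ B) (fun b => if b then {a}ᶜ else {a}) ?_ ?_ ?_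
  · have h5 := hind.indepFun (i := true) (j := false) (by decide)
    have h6 := h5.measure_inter_preimage_eq_mul {True} {True} (MeasurableSet.of_discrete)
      (MeasurableSet.of_discrete)
    have e1 : (fun ω : Env (Lab V) => if true = true then ω ∈ A else ω ∈ B) ⁻¹' {True} = A := by
      ext ω
      simp
    have e2 : (fun ω : Env (Lab V) => if false = true then ω ∈ A else ω ∈ B) ⁻¹' {True} = B := by
      ext ω
      simp
    rw [e1, e2] at h6
    exact h6
  · intro b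
    cases b
    · exact measurableSet_setOfPred.1 hB
    · exact measurableSet_setOfPred.1 hA
  · intro b ω ω' h
    cases b
    · have := hB' ω ω' (h a (by simp))
      simpa using this
    · have := hA' ω ω' (fun i hi => h i (by simpa using hi))
      simpa using this
  · intro b b' hbb
    cases b <;> cases b'
    · exact absurd rfl hbb
    · simp only [Bool.false_eq_true, if_false, if_true]
      exact disjoint_compl_right
    · simp only [Bool.false_eq_true, if_false, if_true]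
      exact disjoint_compl_left
    · exact absurd rfl hbb

end meas

/-- **HIT** -/
theorem s_hit (h1 : S_RIX) (h2 : S_BLOCK) (h3 : S_MEAS) (h4 : S_HAND) : S_HIT := by
  intro e lam V _ G Φ w hlam hinj hadj hexit hdie
  obtain ⟨r0, hr0⟩ : ∃ r0, r0 = Φ [] := ⟨_, rfl⟩
  obtain ⟨H, hH⟩ : ∃ H, H = Rs G (range Φ) := ⟨_, rfl⟩
  have hadjH : ∀ u v, (TW e).Adj u v ↔ H.Adj (Φ u) (Φ v) := by
    intro u v
    rw [hH]
    exact ⟨fun h => ⟨(hadj u v).1 h, ⟨u, rfl⟩, ⟨v, rfl⟩⟩, fun h => (hadj u v).2 h.1⟩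
  have hexH : ∀ u x, H.Adj (Φ u) x → x ∈ range Φ := by
    intro u x h
    rw [hH] at h
    exact h.2.2
  have hcon : ∀ (ω : Env (Lab V)) (u v : W e) (k l : ℤ),
      Con (TW e) (pull Φ 0 ω) u k v l ↔ Con H ω (Φ u) k (Φ v) l := by
    intro ω u v k l
    have := Con_pull (k0 := 0) (ω := ω) hinj hadjH hexH u v k l
    simpa using this
  have hmp := h1.2 (W e) V lam Φ 0 hinj
  have hmC : ∀ (x y : V) (k l : ℤ), MeasurableSet {ω | Con H ω x k y l} := fun x y k l =>
    h3 V H x y k l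
  -- the events
  obtain ⟨D, hD⟩ : ∃ D : ℕ → Set (Env (Lab V)), D = fun j : ℕ =>
      {ω | Con H (del r0 (-((j : ℤ) + 1)) ω) r0 (-((j : ℤ) + 1)) (Φ w) 0} := ⟨_, rfl⟩
  have hDm : ∀ j, MeasurableSet (D j) := by
    intro j
    rw [hD]
    exact measurable_del r0 (-((j : ℤ) + 1)) (hmC r0 (Φ w) (-((j : ℤ) + 1)) 0)
  obtain ⟨F, hF⟩ : ∃ F : ℕ → Set (Env (Lab V)), F = disjointed D := ⟨_, rfl⟩
  have hFm : ∀ j, MeasurableSet (F j) := by
    intro j
    rw [hF]
    exact MeasurableSet.disjointed hDm j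
  have hFd : Pairwise (Function.onFun Disjoint F) := by
    rw [hF]
    exact disjoint_disjointed D
  have hFU : ⋃ j, F j = ⋃ j, D j := by
    rw [hF]
    exact iUnion_disjointed
  obtain ⟨NR, hNR⟩ : ∃ NR : ℕ → Set (Env (Lab V)), NR = fun j : ℕ =>
      {ω | (ω (Sum.inr r0, -((j : ℤ) + 1))).1 = 0} := ⟨_, rfl⟩
  have hNRm : ∀ j, MeasurableSet (NR j) := by
    intro j
    rw [hNR]
    exact (measurable_fst.comp (measurable_pi_apply _)) (measurableSet_singleton 0)
  have hNRp : ∀ j, mu V lam (NR j) = ENNReal.ofReal (Real.exp (-1)) := by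
    intro j
    rw [hNR]
    exact (h4 V G lam r0 r0 (-((j : ℤ) + 1)) hlam).2
  -- dependence of `D i` on the cells
  have hDdep : ∀ (j i : ℕ), i ≤ j → ∀ ω ω' : Env (Lab V),
      (∀ c, c ≠ (Sum.inr r0, -((j : ℤ) + 1)) → ω c = ω' c) → (ω ∈ D i ↔ ω' ∈ D i) := by
    intro j i hij ω ω' h
    rw [hD]
    refine Con_congr fun c hc => ?_
    by_cases hci : c = (Sum.inr r0, -((i : ℤ) + 1))
    · rw [hci, del_self, del_self]
    · rw [del_of_ne hci, del_of_ne hci]
      refine h c ?_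
      rintro rfl
      rcases Nat.lt_or_ge i j with h' | h'
      · have h5 := hc.1
        simp only at h5
        omega
      · have : i = j := le_antisymm hij h'
        subst this
        exact hci rfl
  have hFdep : ∀ (j : ℕ) (ω ω' : Env (Lab V)),
      (∀ c, c ≠ (Sum.inr r0, -((j : ℤ) + 1)) → ω c = ω' c) → (ω ∈ F j ↔ ω' ∈ F j) := by
    intro j ω ω' h
    have key : ∀ ω : Env (Lab V), ω ∈ F j ↔ (ω ∈ D j ∧ ∀ i, i < j → ω ∉ D i) := by
      intro ω
      rw [hF, disjointed_eq_inter_compl, mem_inter_iff, mem_iInter₂]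
      exact Iff.rfl
    rw [key, key, hDdep j j le_rfl ω ω' h]
    refine and_congr_right fun _ => forall₂_congr fun i hi => ?_
    rw [hDdep j i hi.le ω ω' h]
  have hind : ∀ j, mu V lam (F j ∩ NR j) = mu V lam (F j) * ENNReal.ofReal (Real.exp (-1)) := by
    intro j
    rw [← hNRp j]
    refine indep_cell h2 lam (Sum.inr r0, -((j : ℤ) + 1)) (hFm j) (hNRm j) (hFdep j) ?_
    intro ω ω' h
    rw [hNR]
    simp only [mem_ofPred_eq]
    rw [h]
  -- the event on the right hand side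
  have hsub : (⋃ j, F j ∩ NR j) ⊆ {ω | ∃ n : ℕ, Con H ω r0 (-(n : ℤ)) (Φ w) 0} := by
    intro ω hω
    obtain ⟨j, hj1, hj2⟩ := mem_iUnion.1 hω
    have hj3 : ω ∈ D j := by
      rw [hF] at hj1
      exact disjointed_subset D j hj1
    rw [hD] at hj3
    rw [hNR] at hj2
    refine ⟨j + 1, ?_⟩
    have h5 : Con H (del r0 (-((j : ℤ) + 1)) ω) r0 (-((j : ℤ) + 1)) (Φ w) 0 := hj3
    have h6 := marks_del_eq (r0 := r0) (k := -((j : ℤ) + 1)) (ω := ω) hj2
    unfold Pool.Agent.H948.SF.Con PE at h5 ⊢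
    rw [h6] at h5
    push_cast at h5 ⊢
    exact h5
  have hR : mu (W e) lam {ω | ∃ n : ℕ, Con (TW e) ω [] (-(n : ℤ)) w 0} =
      mu V lam {ω | ∃ n : ℕ, Con H ω r0 (-(n : ℤ)) (Φ w) 0} := by
    have hm : MeasurableSet {ω : Env (Lab (W e)) | ∃ n : ℕ, Con (TW e) ω [] (-(n : ℤ)) w 0} := by
      rw [ofPred_exists]
      exact MeasurableSet.iUnion fun n => h3 (W e) (TW e) [] w _ _
    rw [← hmp.measure_preimage hm.nullMeasurableSet]
    congr 1
    ext ω
    simp only [mem_preimage, mem_ofPred_eq, hcon, ← hr0]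
  have hlow : ENNReal.ofReal (Real.exp (-1)) * mu V lam (⋃ j, D j) ≤
      mu V lam {ω | ∃ n : ℕ, Con H ω r0 (-(n : ℤ)) (Φ w) 0} := by
    refine le_trans (le_of_eq ?_) (measure_mono hsub)
    rw [← hFU, measure_iUnion hFd hFm, measure_iUnion, ← ENNReal.tsum_mul_left]
    · refine tsum_congr fun j => ?_
      rw [hind j, mul_comm]
    · intro i j hij
      exact (hFd hij).mono inter_subset_left inter_subset_left
    · exact fun j => (hFm j).inter (hNRm j)
  rw [hR]
  refine le_trans (mul_le_mul_right ?_ _) hlow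
  -- (b)
  have hzero : mu V lam {ω | ∀ n : ℕ, ∃ y, Con H ω y (-(n : ℤ)) (Φ w) 0} = 0 := by
    have hm : MeasurableSet {ω : Env (Lab (W e)) | ∀ n : ℕ, ∃ v, Con (TW e) ω v (-(n : ℤ)) w 0} := by
      rw [ofPred_forall]
      refine MeasurableSet.iInter fun n => ?_
      rw [ofPred_exists]
      exact MeasurableSet.iUnion fun v => h3 (W e) (TW e) v w _ _
    rw [← hdie, ← hmp.measure_preimage hm.nullMeasurableSet]
    congr 1
    ext ω
    simp only [mem_preimage, mem_ofPred_eq, hcon]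
    refine forall_congr' fun n => ?_
    constructor
    · rintro ⟨y, hy⟩
      have h5 : y ∈ range Φ := by
        rw [hH] at hy
        exact PE.start_of_Rs hy ⟨w, rfl⟩
      obtain ⟨v, rfl⟩ := h5
      exact ⟨v, hy⟩
    · rintro ⟨v, hv⟩
      exact ⟨Φ v, hv⟩
  have hcov : {ω | ∀ n : ℕ, ∃ y, Con G ω y (-(n : ℤ)) (Φ w) 0} ⊆
      (⋃ j, D j) ∪ {ω | ∀ n : ℕ, ∃ y, Con H ω y (-(n : ℤ)) (Φ w) 0} := by
    intro ω hω
    by_cases hc : ∃ j, ω ∈ D j
    · exact Or.inl (mem_iUnion.2 hc)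
    · right
      intro n
      obtain ⟨y, hy⟩ := hω n
      have h5 := det hexit (s := -(n : ℤ)) hy ⟨w, rfl⟩
      rcases h5 with h5 | ⟨k, hk1, hk2, h5⟩
      · refine ⟨y, ?_⟩
        rw [hH]
        exact h5
      · exfalso
        apply hc
        have hk3 : k < 0 := by
          have : (k : ℝ) < ((0 : ℤ) : ℝ) := hk2
          exact_mod_cast this
        obtain ⟨j, hj⟩ : ∃ j : ℕ, k = -((j : ℤ) + 1) := ⟨(-k - 1).toNat, by omega⟩
        refine ⟨j, ?_⟩
        rw [hD]
        show Con H (del r0 (-((j : ℤ) + 1)) ω) r0 (-((j : ℤ) + 1)) (Φ w) 0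
        rw [← hj, hH, hr0]
        exact h5
  calc mu V lam {ω | ∀ n : ℕ, ∃ y, Con G ω y (-(n : ℤ)) (Φ w) 0}
      ≤ mu V lam ((⋃ j, D j) ∪ {ω | ∀ n : ℕ, ∃ y, Con H ω y (-(n : ℤ)) (Φ w) 0}) :=
        measure_mono hcov
    _ ≤ mu V lam (⋃ j, D j) + mu V lam {ω | ∀ n : ℕ, ∃ y, Con H ω y (-(n : ℤ)) (Φ w) 0} :=
        measure_union_le _ _
    _ = mu V lam (⋃ j, D j) := by rw [hzero, add_zero]

end Pool.Agent.H284.SFHIT
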